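import Pool.Agent.Y690.PP.Stm

/-!
Chebyshev's bound over the Gaussian integers (`A1 gN`).
-/

set_option autoImplicit false

namespace Pool.Agent.Y658.PP

open Finset Pool.Agent.Y690.PP

theorem nm_mul (a b : G) : nm (a * b) = nm a * nm b := by
  unfold nm
  rw [Zsqrtd.norm_mul, Int.natAbs_mul]

theorem nm_one : nm (1 : G) = 1 := by
  unfold nm
  rw [Zsqrtd.norm_one]
  rfl

theorem nm_prod {ι : Type} (s : Finset ι) (f : ι → G) : nm (∏ i ∈ s, f i) = ∏ i ∈ s, nm (f i) := by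
  classical
  induction s using Finset.induction_on with
  | empty => simp [nm_one]
  | insert a s ha ih => rw [Finset.prod_insert ha, Finset.prod_insert ha, nm_mul, ih]

theorem nm_dvd {a b : G} (h : a ∣ b) : nm a ∣ nm b := by
  obtain ⟨c, rfl⟩ := h
  exact ⟨nm c, nm_mul a c⟩

theorem nm_natCast (l : ℕ) : nm (l : G) = l ^ 2 := by
  unfold nm
  rw [Zsqrtd.norm_natCast, ← Nat.cast_mul, Int.natAbs_natCast, sq]

theorem dvd_nm (a : G) : a ∣ ((nm a : ℕ) : G) := by
  refine ⟨star a, ?_⟩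
  unfold nm
  rw [GaussianInt.natCast_natAbs_norm, Zsqrtd.norm_eq_mul_conj]

theorem nm_eq_zero {a : G} : nm a = 0 ↔ a = 0 := by
  unfold nm
  rw [Int.natAbs_eq_zero, GaussianInt.norm_eq_zero]

/-- a unit congruent to one is one -/
theorem unit_prm {u : G} (hu : IsUnit u) (h : (⟨2, 2⟩ : G) ∣ u - 1) : u = 1 := by
  have h1 : u.norm = 1 := by
    have h2 := Zsqrtd.norm_eq_one_iff.mpr hu
    have h3 := GaussianInt.abs_natCast_norm u
    rw [h2] at h3
    exact_mod_cast h3.symm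
  obtain ⟨c, hc⟩ := h
  have h4 : (u - 1).norm = 8 * c.norm := by
    rw [hc, Zsqrtd.norm_mul]
    congr 1
  rw [Zsqrtd.norm_def] at h1 h4
  have h5 : (u - 1).re = u.re - 1 := by simp
  have h6 : (u - 1).im = u.im := by simp
  rw [h5, h6] at h4
  have h7 : 1 - u.re = 4 * c.norm := by nlinarith
  have h8 : c.norm = 0 := by
    have h9 : 0 ≤ c.norm := GaussianInt.norm_nonneg c
    by_contra hne
    have h10 : 1 ≤ c.norm := by omega
    have h11 : u.re ≤ -3 := by linarith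
    have h12 : 0 ≤ u.im * u.im := mul_self_nonneg _
    have h13 : 9 ≤ u.re * u.re := by nlinarith
    linarith
  rw [h8] at h7
  have h9 : u.re = 1 := by omega
  have h10 : u.im = 0 := by
    rw [h9] at h1
    have : u.im * u.im = 0 := by nlinarith
    exact mul_self_eq_zero.mp this
  ext
  · simpa using h9
  · simpa using h10

theorem prm_assoc {p q : G} (hp : Prm p) (hq : Prm q) (h : Associated p q) : p = q := by
  obtain ⟨u, rfl⟩ := h
  have h1 : (u : G) = 1 := by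
    apply unit_prm u.isUnit
    have h2 : (u : G) - 1 = (p * u - 1) - (p - 1) * u := by ring
    rw [h2]
    exact dvd_sub hq (dvd_mul_of_dvd_left hp _)
  rw [h1, mul_one]

theorem coprime_of_ne {p q : Pr} (h : p ≠ q) : IsCoprime p.1 q.1 := by
  have h1 : ¬ p.1 ∣ q.1 := by
    intro h2
    exact h (Subtype.ext (prm_assoc p.2.2 q.2.2 (p.2.1.associated_of_dvd q.2.1 h2)))
  exact (p.2.1.irreducible.isCoprime_or_dvd q.1).resolve_right h1

theorem prod_dvd_of (s : Finset Pr) (z : G) (h : ∀ p ∈ s, p.1 ∣ z) : ∏ p ∈ s, p.1 ∣ z :=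
  Finset.prod_dvd_of_coprime (fun _ _ _ _ hpq => coprime_of_ne hpq) h

theorem two_le_gN (p : Pr) : 2 ≤ gN p := by
  have h1 : nm p.1 ≠ 0 := fun h => p.2.1.ne_zero (nm_eq_zero.mp h)
  have h2 : nm p.1 ≠ 1 := fun h => p.2.1.not_isUnit (Zsqrtd.norm_eq_one_iff.mp h)
  have : 2 ≤ nm p.1 := by omega
  exact this

theorem exists_lp (p : Pr) : ∃ l : ℕ, l.Prime ∧ p.1 ∣ (l : G) ∧ l ≤ gN p := by
  have h1 : p.1 ∣ ((gN p : ℕ) : G) := dvd_nm p.1
  have h0 : gN p ≠ 0 := by have := two_le_gN p; omega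
  rw [← Nat.prod_primeFactorsList h0, Nat.cast_list_prod] at h1
  obtain ⟨a, ha, hpa⟩ := (Prime.dvd_prod_iff p.2.1).mp h1
  obtain ⟨l, hl, rfl⟩ := List.mem_map.mp ha
  exact ⟨l, Nat.prime_of_mem_primeFactorsList hl, hpa,
    Nat.le_of_dvd (Nat.pos_of_ne_zero h0) (Nat.dvd_of_mem_primeFactorsList hl)⟩

/-- the rational prime under a prime -/
noncomputable def lp (p : Pr) : ℕ := (exists_lp p).choose

theorem lp_prime (p : Pr) : (lp p).Prime := (exists_lp p).choose_spec.1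
theorem dvd_lp (p : Pr) : p.1 ∣ (lp p : G) := (exists_lp p).choose_spec.2.1
theorem lp_le (p : Pr) : lp p ≤ gN p := (exists_lp p).choose_spec.2.2

theorem le_of_mem_PB {x : ℝ} {p : Pr} (h : p ∈ PB gN x) : (gN p : ℝ) ≤ x := by
  unfold PB at h
  split_ifs at h with h1
  · simpa using h
  · simp at h

theorem fiber_le (s : Finset Pr) (l : ℕ) (hl : l.Prime) (h : ∀ p ∈ s, p.1 ∣ (l : G)) :
    ∑ p ∈ s, Real.log (gN p) ≤ 2 * Real.log l := by
  have h1 : ∏ p ∈ s, gN p ∣ l ^ 2 := by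
    have h2 := nm_dvd (prod_dvd_of s l h)
    rw [nm_prod, nm_natCast] at h2
    exact h2
  have h3 : ∏ p ∈ s, gN p ≤ l ^ 2 := Nat.le_of_dvd (pow_pos hl.pos 2) h1
  rw [← Real.log_prod (fun p _ => by
    have := two_le_gN p
    have : (gN p : ℝ) ≠ 0 := by
      have h4 : gN p ≠ 0 := by omega
      exact_mod_cast h4
    exact this)]
  have h5 : (∏ p ∈ s, (gN p : ℝ)) ≤ (l : ℝ) ^ 2 := by exact_mod_cast h3
  have h6 : (0 : ℝ) < ∏ p ∈ s, (gN p : ℝ) := Finset.prod_pos fun p _ => by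
    have h4 : 0 < gN p := by have := two_le_gN p; omega
    exact_mod_cast h4
  calc Real.log (∏ p ∈ s, (gN p : ℝ)) ≤ Real.log ((l : ℝ) ^ 2) := Real.log_le_log h6 h5
    _ = 2 * Real.log l := by rw [Real.log_pow]; norm_num

theorem t_A1 : A1 gN := by
  classical
  refine ⟨2 * Real.log 4, fun x hx => ?_⟩
  have hx0 : 0 ≤ x := by linarith
  have hmaps : ∀ p ∈ PB gN x, lp p ∈ (Finset.Icc 0 ⌊x⌋₊).filter Nat.Prime := by
    intro p hp
    rw [Finset.mem_filter, Finset.mem_Icc]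
    refine ⟨⟨Nat.zero_le _, Nat.le_floor ?_⟩, lp_prime p⟩
    exact le_trans (by exact_mod_cast lp_le p) (le_of_mem_PB hp)
  rw [← Finset.sum_fiberwise_of_maps_to hmaps]
  calc ∑ l ∈ (Finset.Icc 0 ⌊x⌋₊).filter Nat.Prime,
        ∑ p ∈ (PB gN x).filter (fun p => lp p = l), Real.log (gN p)
      ≤ ∑ l ∈ (Finset.Icc 0 ⌊x⌋₊).filter Nat.Prime, 2 * Real.log l := by
        refine Finset.sum_le_sum fun l hl => ?_
        refine fiber_le _ l (Finset.mem_filter.mp hl).2 fun p hp => ?_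
        rw [← (Finset.mem_filter.mp hp).2]
        exact dvd_lp p
    _ = 2 * Chebyshev.theta x := by
        rw [Chebyshev.theta_eq_sum_Icc, Finset.mul_sum]
    _ ≤ 2 * (Real.log 4 * x) := by
        have := Chebyshev.theta_le_log4_mul_x hx0
        linarith
    _ = 2 * Real.log 4 * x := by ring

end Pool.Agent.Y658.PP
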